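import Mathlib

/-!
# Autocorrelations of functions with small Fourier coefficients
-/

set_option autoImplicit false

open Finset
open scoped ComplexConjugate

namespace Pool.Agent.E8helper40.AA

section additive

variable {A : Type} [AddCommGroup A] [Fintype A]

/-- Parseval. -/
lemma parseval (c : A → ℝ) :
    ∑ ψ : AddChar A ℂ, ‖∑ a, ψ a * (c a : ℂ)‖ ^ 2 = Fintype.card A * ∑ a, c a ^ 2 := by
  classical
  have h1 : ∀ ψ : AddChar A ℂ, ((‖∑ a, ψ a * (c a : ℂ)‖ ^ 2 : ℝ) : ℂ)
      = ∑ a, ∑ b, (c a : ℂ) * (c b : ℂ) * ψ (a - b) := by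
    intro ψ
    push_cast
    rw [← Complex.conj_mul', map_sum, Finset.sum_mul_sum, Finset.sum_comm]
    refine sum_congr rfl fun a _ => sum_congr rfl fun b _ => ?_
    rw [map_mul, Complex.conj_ofReal, ← AddChar.map_neg_eq_conj, sub_eq_add_neg,
      AddChar.map_add_eq_mul]
    ring
  have h2 : ((∑ ψ : AddChar A ℂ, ‖∑ a, ψ a * (c a : ℂ)‖ ^ 2 : ℝ) : ℂ)
      = ((Fintype.card A * ∑ a, c a ^ 2 : ℝ) : ℂ) := by
    push_cast
    rw [Finset.mul_sum]
    have h3 : ∀ ψ : AddChar A ℂ, ((‖∑ a, ψ a * (c a : ℂ)‖ : ℂ)) ^ 2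
        = ∑ a, ∑ b, (c a : ℂ) * (c b : ℂ) * ψ (a - b) := by
      intro ψ
      rw [← h1 ψ]
      push_cast
      rfl
    rw [sum_congr rfl fun ψ _ => h3 ψ, sum_comm]
    refine sum_congr rfl fun a _ => ?_
    rw [sum_comm]
    rw [Finset.sum_eq_single a]
    · simp only [sub_self, AddChar.map_zero_eq_one, mul_one, sum_const, card_univ, nsmul_eq_mul]
      rw [AddChar.card_eq]
      ring
    · intro b _ hb
      rw [← Finset.mul_sum, AddChar.sum_apply_eq_ite, if_neg (sub_ne_zero.2 hb.symm), mul_zero]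
    · simp
  exact_mod_cast h2

/-- Autocorrelations of a function with small Fourier coefficients are small on average. -/
lemma autocorrelation (G : A → ℝ) {M δ : ℝ} (hM : ∀ a, |G a| ≤ M)
    (h : ∀ ψ : AddChar A ℂ, ‖∑ a, ψ a * (G a : ℂ)‖ ≤ δ * Fintype.card A) :
    ∑ r, (∑ a, G a * G (r + a)) ^ 2 ≤ δ ^ 2 * M ^ 2 * (Fintype.card A : ℝ) ^ 3 := by
  classical
  have hcard : (0 : ℝ) < Fintype.card A := by exact_mod_cast Fintype.card_pos
  have h1 : ∀ ψ : AddChar A ℂ, ∑ r, ψ r * ((∑ a, G a * G (r + a) : ℝ) : ℂ)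
      = ((‖∑ a, ψ a * (G a : ℂ)‖ ^ 2 : ℝ) : ℂ) := by
    intro ψ
    push_cast
    rw [← Complex.conj_mul', map_sum, Finset.sum_mul_sum]
    simp only [Finset.mul_sum]
    rw [sum_comm]
    refine sum_congr rfl fun a _ => ?_
    refine Eq.trans ?_ (Equiv.sum_comp (Equiv.addRight a) _)
    refine sum_congr rfl fun r _ => ?_
    rw [map_mul, Complex.conj_ofReal, ← AddChar.map_neg_eq_conj, Equiv.coe_addRight]
    have h0 : ψ r = ψ (-a) * ψ (r + a) := by
      rw [← AddChar.map_add_eq_mul]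
      congr 1
      abel
    rw [h0]
    ring
  have h2 := parseval (fun r => ∑ a, G a * G (r + a))
  have h3 := parseval G
  simp only [h1] at h2
  have h4 : ∀ ψ : AddChar A ℂ, ‖((‖∑ a, ψ a * (G a : ℂ)‖ ^ 2 : ℝ) : ℂ)‖ ^ 2
      ≤ (δ * Fintype.card A) ^ 2 * ‖∑ a, ψ a * (G a : ℂ)‖ ^ 2 := by
    intro ψ
    rw [Complex.norm_real, Real.norm_of_nonneg (by positivity), sq (‖_‖ ^ 2)]
    refine mul_le_mul_of_nonneg_right ?_ (by positivity)
    exact pow_le_pow_left₀ (norm_nonneg _) (h ψ) 2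
  have h5 : (Fintype.card A : ℝ) * ∑ r, (∑ a, G a * G (r + a)) ^ 2
      ≤ (δ * Fintype.card A) ^ 2 * (Fintype.card A * (Fintype.card A * M ^ 2)) := by
    rw [← h2]
    refine (sum_le_sum fun ψ _ => h4 ψ).trans ?_
    rw [← Finset.mul_sum, h3]
    refine mul_le_mul_of_nonneg_left (mul_le_mul_of_nonneg_left ?_ hcard.le) (by positivity)
    calc ∑ a, G a ^ 2 ≤ ∑ _a : A, M ^ 2 := sum_le_sum fun a _ => by
          rw [← sq_abs]
          exact pow_le_pow_left₀ (abs_nonneg _) (hM a) 2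
      _ = _ := by simp
  have h6 : (Fintype.card A : ℝ) * ∑ r, (∑ a, G a * G (r + a)) ^ 2
      ≤ Fintype.card A * (δ ^ 2 * M ^ 2 * (Fintype.card A : ℝ) ^ 3) := by
    refine h5.trans (le_of_eq ?_)
    ring
  exact le_of_mul_le_mul_left h6 hcard

end additive

section action

variable {A : Type} [CommGroup A] [Fintype A] {Y : Type} [Fintype Y] [MulAction A Y]

/-- The autocorrelation of a function on a set with an action of a finite abelian group. -/
def corr (g : Y → ℝ) (r : A) : ℝ := ∑ y, g y * g (r • y)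

lemma corr_sq_sum (g : Y → ℝ) {M δ : ℝ} (hM : ∀ y, |g y| ≤ M)
    (h : ∀ (y : Y) (ψ : AddChar (Additive A) ℂ),
      ‖∑ a : A, ψ (Additive.ofMul a) * (g (a • y) : ℂ)‖ ≤ δ * Fintype.card A) :
    ∑ r : A, corr g r ^ 2 ≤ δ ^ 2 * M ^ 2 * Fintype.card A * (Fintype.card Y : ℝ) ^ 2 := by
  classical
  have hcard : (0 : ℝ) < Fintype.card A := by exact_mod_cast Fintype.card_pos
  -- the correlations on the orbits
  have h1 : ∀ y : Y, ∑ r : A, (∑ a : A, g (a • y) * g ((r * a) • y)) ^ 2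
      ≤ δ ^ 2 * M ^ 2 * (Fintype.card A : ℝ) ^ 3 := by
    intro y
    have hs : ∀ F : Additive A → ℝ, ∑ x, F x = ∑ a : A, F (Additive.ofMul a) :=
      fun F => (Equiv.sum_comp Additive.ofMul F).symm
    have hs' : ∀ F : Additive A → ℂ, ∑ x, F x = ∑ a : A, F (Additive.ofMul a) :=
      fun F => (Equiv.sum_comp Additive.ofMul F).symm
    have hc : Fintype.card (Additive A) = Fintype.card A := Fintype.card_congr Additive.toMul
    have := autocorrelation (A := Additive A) (fun a => g (a.toMul • y)) (M := M) (δ := δ)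
      (fun a => hM _) (fun ψ => by
        rw [hs', hc]
        exact h y ψ)
    rw [hs, hc] at this
    simp only [hs] at this
    exact this
  have h2 : ∀ r : A, (Fintype.card A : ℝ) * corr g r
      = ∑ y, ∑ a : A, g (a • y) * g ((r * a) • y) := by
    intro r
    rw [sum_comm]
    have : ∀ a : A, ∑ y, g (a • y) * g ((r * a) • y) = corr g r := by
      intro a
      have h := Equiv.sum_comp (MulAction.toPerm a) (fun y => g y * g (r • y))
      simp only [MulAction.toPerm_apply, ← mul_smul] at h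
      exact h
    rw [sum_congr rfl fun a _ => this a]
    simp
  have h3 : ∀ r : A, ((Fintype.card A : ℝ) * corr g r) ^ 2
      ≤ Fintype.card Y * ∑ y, (∑ a : A, g (a • y) * g ((r * a) • y)) ^ 2 := by
    intro r
    rw [h2]
    have := sq_sum_le_card_mul_sum_sq (s := (univ : Finset Y))
      (f := fun y => ∑ a : A, g (a • y) * g ((r * a) • y))
    simpa using this
  have h4 : (Fintype.card A : ℝ) ^ 2 * ∑ r : A, corr g r ^ 2
      ≤ Fintype.card Y * (Fintype.card Y * (δ ^ 2 * M ^ 2 * (Fintype.card A : ℝ) ^ 3)) := by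
    calc (Fintype.card A : ℝ) ^ 2 * ∑ r : A, corr g r ^ 2
        = ∑ r : A, ((Fintype.card A : ℝ) * corr g r) ^ 2 := by
          rw [Finset.mul_sum]
          exact sum_congr rfl fun r _ => by ring
      _ ≤ ∑ r : A, (Fintype.card Y * ∑ y, (∑ a : A, g (a • y) * g ((r * a) • y)) ^ 2) :=
          sum_le_sum fun r _ => h3 r
      _ = Fintype.card Y * ∑ y, ∑ r : A, (∑ a : A, g (a • y) * g ((r * a) • y)) ^ 2 := by
          rw [← Finset.mul_sum, sum_comm]
      _ ≤ Fintype.card Y * ∑ _y : Y, (δ ^ 2 * M ^ 2 * (Fintype.card A : ℝ) ^ 3) := by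
          refine mul_le_mul_of_nonneg_left (sum_le_sum fun y _ => h1 y) (by positivity)
      _ = _ := by simp
  have h5 : (Fintype.card A : ℝ) ^ 2 * ∑ r : A, corr g r ^ 2
      ≤ (Fintype.card A : ℝ) ^ 2 * (δ ^ 2 * M ^ 2 * Fintype.card A * (Fintype.card Y : ℝ) ^ 2) := by
    refine h4.trans (le_of_eq ?_)
    ring
  exact le_of_mul_le_mul_left h5 (by positivity)

/-- The average of the squares of the autocorrelations over the image of a group. -/
lemma corr_sq_sum_hom {T : Type} [Group T] [Fintype T] (r : T →* A) (b : ℕ)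
    (hb : Fintype.card A ≤ b * Nat.card r.range) (g : Y → ℝ) {M δ : ℝ} (hM : ∀ y, |g y| ≤ M)
    (h : ∀ (y : Y) (ψ : AddChar (Additive A) ℂ),
      ‖∑ a : A, ψ (Additive.ofMul a) * (g (a • y) : ℂ)‖ ≤ δ * Fintype.card A) :
    ∑ t : T, corr g (r t) ^ 2 ≤ b * δ ^ 2 * M ^ 2 * Fintype.card T * (Fintype.card Y : ℝ) ^ 2 := by
  classical
  have h1 := corr_sq_sum g hM h
  have h2 : ∑ t : T, corr g (r t) ^ 2 ≤ Nat.card r.ker * ∑ a : A, corr g a ^ 2 := by
    rw [← Finset.sum_fiberwise (s := (univ : Finset T)) (g := fun t => r t), Finset.mul_sum]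
    refine sum_le_sum fun a _ => ?_
    rw [sum_congr rfl (g := fun _ => corr g a ^ 2)
      (fun t ht => by rw [(Finset.mem_filter.1 ht).2]), sum_const, nsmul_eq_mul]
    refine mul_le_mul_of_nonneg_right ?_ (sq_nonneg _)
    norm_cast
    by_cases hne : ∃ t₀, r t₀ = a
    · obtain ⟨t₀, rfl⟩ := hne
      rw [Nat.card_eq_fintype_card, ← Fintype.card_coe]
      refine Fintype.card_le_of_injective (fun t => (⟨t.1 * t₀⁻¹, ?_⟩ : r.ker)) ?_
      · rw [MonoidHom.mem_ker, map_mul, map_inv, (Finset.mem_filter.1 t.2).2, mul_inv_cancel]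
      · intro t t' htt
        have := congrArg Subtype.val htt
        exact Subtype.ext (mul_right_cancel this)
    · rw [Finset.filter_eq_empty_iff.2, card_empty]
      · exact Nat.zero_le _
      · intro t _ ht
        exact hne ⟨t, ht⟩
  have h3 : (Nat.card r.ker : ℝ) * Nat.card r.range = Fintype.card T := by
    have h := Subgroup.card_eq_card_quotient_mul_card_subgroup r.ker
    rw [Nat.card_congr (QuotientGroup.quotientKerEquivRange r).toEquiv] at h
    rw [← Nat.card_eq_fintype_card, h]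
    push_cast
    ring
  refine h2.trans ((mul_le_mul_of_nonneg_left h1 (by positivity)).trans ?_)
  have h4 : (Fintype.card A : ℝ) ≤ b * Nat.card r.range := by exact_mod_cast hb
  calc (Nat.card r.ker : ℝ) * (δ ^ 2 * M ^ 2 * Fintype.card A * (Fintype.card Y : ℝ) ^ 2)
      ≤ (Nat.card r.ker : ℝ) *
        (δ ^ 2 * M ^ 2 * (b * Nat.card r.range) * (Fintype.card Y : ℝ) ^ 2) := by
        gcongr
    _ = b * δ ^ 2 * M ^ 2 * ((Nat.card r.ker : ℝ) * Nat.card r.range)
        * (Fintype.card Y : ℝ) ^ 2 := by ring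
    _ = _ := by rw [h3]

end action

end Pool.Agent.E8helper40.AA
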