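import Pool.Agent.E8helper40.AA.Moment

/-!
# The measures on the Galois orbits
-/

set_option autoImplicit false

open Finset MeasureTheory
open scoped BoundedContinuousFunction

namespace Pool.Agent.E8helper40.AA

open Pool.Agent.E8helper40.EQ

lemma avg_eq {Θ Z X : Type} [Group Θ] [Fintype Θ] [DecidableEq Z] (a : Θ → Z)
    (H : Subgroup Θ) (ha : ∀ s t, a s = a t ↔ s⁻¹ * t ∈ H) (S : Set Z) (hS : S = Set.range a)
    [TopologicalSpace X] [MeasurableSpace X] [OpensMeasurableSpace X] (φ : Z → X) (f : X →ᵇ ℝ) :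
    ∫ x, f x ∂(uniform S φ) = (Fintype.card Θ : ℝ)⁻¹ * ∑ t, f (φ (a t)) := by
  have h1 : S = ((univ.image a : Finset Z) : Set Z) := by
    rw [hS]
    simp
  obtain ⟨h2, h3⟩ := orbit_sum a H ha (fun z => f (φ z))
  rw [h1, integral_uniform, h2, h3, nsmul_eq_mul]
  have hH : (0 : ℝ) < Nat.card H := by
    exact_mod_cast Nat.card_pos
  push_cast
  rw [mul_inv]
  field_simp

variable {G : Type} [Group G] {Γ : Subgroup G} {J : Type} {W : J → Type}
  (P : ∀ j, SpecialPoints Γ (W j)) (x : ∀ j, (P j).Z)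

lemma integral_galois [Fintype J] [Fintype (Phi P x).range] [∀ j, TopologicalSpace (W j)]
    [∀ j, SecondCountableTopology (W j)] [∀ j, MeasurableSpace (W j)] [∀ j, BorelSpace (W j)]
    (y : ∀ j, Orb P x j) (f : (∀ j, W j) →ᵇ ℝ) :
    ∫ w, f w ∂(galoisMeasure P (val P x y)) = (Fintype.card (Phi P x).range : ℝ)⁻¹ *
      ∑ θ : (Phi P x).range,
        f fun j => (P j).pt ((((θ : ∀ j, Equiv.Perm (Orb P x j)) • y) j : Orb P x j) : (P j).Z) := by
  classical
  rw [galoisMeasure, avg_eq (fun θ : (Phi P x).range =>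
    val P x ((θ : ∀ j, Equiv.Perm (Orb P x j)) • y))
    ((MulAction.stabilizer (∀ j, Equiv.Perm (Orb P x j)) y).subgroupOf (Phi P x).range)]
  · rfl
  · intro s t
    rw [(val_injective P x).eq_iff, Subgroup.mem_subgroupOf, MulAction.mem_stabilizer_iff,
      Subgroup.coe_mul, Subgroup.coe_inv, mul_smul, inv_smul_eq_iff]
    exact eq_comm
  · ext z
    constructor
    · rintro ⟨γ, rfl⟩
      exact ⟨⟨Phi P x γ, γ, rfl⟩, rfl⟩
    · rintro ⟨⟨_, γ, rfl⟩, rfl⟩
      exact ⟨γ, rfl⟩

lemma integral_coordinate [Fintype (Phi P x).range] (j : J) [TopologicalSpace (W j)]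
    [MeasurableSpace (W j)] [BorelSpace (W j)]
    (y : ∀ j, Orb P x j) (f : (W j) →ᵇ ℝ) :
    ∫ w, f w ∂(uniform (MulAction.orbit Γ (x j)) (P j).pt) =
      (Fintype.card (Phi P x).range : ℝ)⁻¹ * ∑ θ : (Phi P x).range,
        f ((P j).pt ((((θ : ∀ j, Equiv.Perm (Orb P x j)) • y) j : Orb P x j) : (P j).Z)) := by
  classical
  rw [avg_eq (fun θ : (Phi P x).range =>
    ((((θ : ∀ j, Equiv.Perm (Orb P x j)) • y) j : Orb P x j) : (P j).Z))
    (((MulAction.stabilizer (Equiv.Perm (Orb P x j)) (y j)).comap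
      (Pi.evalMonoidHom (fun j => Equiv.Perm (Orb P x j)) j)).subgroupOf (Phi P x).range)]
  · intro s t
    rw [Subtype.val_injective.eq_iff, Subgroup.mem_subgroupOf, Subgroup.mem_comap,
      MulAction.mem_stabilizer_iff,
      Subgroup.coe_mul, Subgroup.coe_inv, map_mul, map_inv, mul_smul, inv_smul_eq_iff]
    exact eq_comm
  · ext z
    constructor
    · rintro ⟨γ, rfl⟩
      obtain ⟨τ, hτ⟩ := (y j).2
      refine ⟨⟨Phi P x (γ * τ⁻¹), _, rfl⟩, ?_⟩
      change (γ * τ⁻¹) • ((y j : Orb P x j) : (P j).Z) = γ • x j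
      rw [← hτ, mul_smul]
      change γ • τ⁻¹ • τ • x j = _
      rw [inv_smul_smul]
    · rintro ⟨⟨_, γ, rfl⟩, rfl⟩
      obtain ⟨τ, hτ⟩ := (y j).2
      refine ⟨γ * τ, ?_⟩
      change (γ * τ) • x j = γ • ((y j : Orb P x j) : (P j).Z)
      rw [← hτ, mul_smul]

instance galois_prob [Fintype J] [∀ j, MeasurableSpace (W j)] (z : ∀ j, (P j).Z) :
    IsProbabilityMeasure (galoisMeasure P z) := by
  rw [galoisMeasure]
  have h := uniform_prob (X := ∀ j, W j) (orbit_finite P z).toFinset
    ⟨z, by simp [MulAction.mem_orbit_self]⟩ (fun z j => (P j).pt (z j))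
  rwa [Set.Finite.coe_toFinset] at h

/-- The Galois measure as a probability measure. -/
noncomputable def nu [Fintype J] [∀ j, MeasurableSpace (W j)] (z : ∀ j, (P j).Z) :
    ProbabilityMeasure (∀ j, W j) := ⟨galoisMeasure P z, galois_prob P z⟩

/-- The uniform measure on the orbit of one point. -/
noncomputable def lam {Y : Type} [MeasurableSpace Y] (P : SpecialPoints Γ Y) (z : P.Z) :
    ProbabilityMeasure Y := ⟨uniform (MulAction.orbit Γ z) P.pt, by
  have h := uniform_prob (X := Y) (P.orbit_finite z).toFinset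
    ⟨z, by simp [MulAction.mem_orbit_self]⟩ P.pt
  rwa [Set.Finite.coe_toFinset] at h⟩

/-- The marginals of the Galois measure. -/
lemma marginal [Fintype J] [∀ j, TopologicalSpace (W j)]
    [∀ j, SecondCountableTopology (W j)] [∀ j, TopologicalSpace.PseudoMetrizableSpace (W j)]
    [∀ j, MeasurableSpace (W j)] [∀ j, BorelSpace (W j)]
    (y : ∀ j, Orb P x j) (j : J) :
    (galoisMeasure P (val P x y)).map (fun w => w j)
      = uniform (MulAction.orbit Γ (x j)) (P j).pt := by
  classical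
  let _ : Fintype (Phi P x).range := Fintype.ofFinite _
  have hp : IsProbabilityMeasure (uniform (MulAction.orbit Γ (x j)) (P j).pt) :=
    (lam (P j) (x j)).2
  have hq : IsProbabilityMeasure ((galoisMeasure P (val P x y)).map (fun w => w j)) :=
    Measure.isProbabilityMeasure_map (measurable_pi_apply j).aemeasurable
  refine ext_of_forall_integral_eq_of_IsFiniteMeasure fun f => ?_
  rw [integral_map (measurable_pi_apply j).aemeasurable
    f.continuous.measurable.aestronglyMeasurable, integral_coordinate P x j y]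
  exact integral_galois P x y (f.compContinuous ⟨fun w => w j, continuous_apply j⟩)

end Pool.Agent.E8helper40.AA
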