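import Pool.Agent.E8helper40.AA.Points

/-!
# The second moment for tuples of conjugates of special points
-/

set_option autoImplicit false

open Finset MeasureTheory
open scoped BoundedContinuousFunction

namespace Pool.Agent.E8helper40.AA

open Pool.Agent.E8helper40.EQ

variable {G : Type} [Group G] {Γ : Subgroup G} {J : Type} {W : J → Type}
  (P : ∀ j, SpecialPoints Γ (W j)) (x : ∀ j, (P j).Z)

instance instFiniteOrb (j : J) : Finite (Orb P x j) := (P j).orbit_finite (x j)

noncomputable instance instFintypeOrb (j : J) : Fintype (Orb P x j) := Fintype.ofFinite _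

instance instNonemptyOrb (j : J) : Nonempty (Orb P x j) := ⟨⟨x j, MulAction.mem_orbit_self _⟩⟩

/-- the action on the tuples -/
noncomputable def Phi : Γ →* ∀ j, Equiv.Perm (Orb P x j) := MonoidHom.pi (phi P x)

/-- the intersection of the groups of the CM fields -/
def Delta : Subgroup Γ := ⨅ j, cm (P j) (x j)

lemma cm_index (j : J) (z : (P j).Z) (h0 : ((P j).K z).index ≠ 0) :
    (cm (P j) z).index ≠ 0 ∧ (cm (P j) z).index ≤ ((P j).K z).index := by
  have h1 : (cm (P j) z).index = ((P j).K z).relIndex Γ := rfl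
  have h2 : ((P j).K z).relIndex ⊤ ≠ 0 := by rwa [Subgroup.relIndex_top_right]
  rw [h1]
  constructor
  · intro h3
    exact h2 (Subgroup.relIndex_eq_zero_of_le_right le_top h3)
  · rw [← Subgroup.relIndex_top_right]
    exact Subgroup.relIndex_le_of_le_right le_top h2

lemma Delta_index [Fintype J] (c : ℕ)
    (hK : ∀ j, ((P j).K (x j)).index ≠ 0 ∧ ((P j).K (x j)).index ≤ c) :
    (Delta P x).index ≠ 0 ∧ (Delta P x).index ≤ c ^ Fintype.card J := by
  constructor
  · exact Subgroup.index_iInf_ne_zero fun j => (cm_index P j (x j) (hK j).1).1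
  · refine (Subgroup.index_iInf_le _).trans ?_
    refine (Finset.prod_le_prod' fun j _ =>
      ((cm_index P j (x j) (hK j).1).2.trans (hK j).2)).trans_eq ?_
    simp

lemma card_Ab_le (b : ℕ) (hb0 : (Delta P x).index ≠ 0) (hb : (Delta P x).index ≤ b) (j : J) :
    Nat.card (Ab P x j) ≤ b * Nat.card ((Delta P x).map (phi P x j)) := by
  classical
  let f := (phi P x j).rangeRestrict
  have h1 : ((Delta P x).map f).index ∣ (Delta P x).index :=
    Subgroup.index_map_dvd _ (MonoidHom.rangeRestrict_surjective _)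
  have h2 : ((Delta P x).map f).index ≤ b := (Nat.le_of_dvd (Nat.pos_of_ne_zero hb0) h1).trans hb
  have h3 := ((Delta P x).map f).card_mul_index
  have h4 : Nat.card ((Delta P x).map f) = Nat.card ((Delta P x).map (phi P x j)) := by
    have h5 : ((Delta P x).map f).map (phi P x j).range.subtype = (Delta P x).map (phi P x j) := by
      rw [Subgroup.map_map]
      rfl
    rw [← h5]
    exact Nat.card_congr (Subgroup.equivMapOfInjective _ _
      (Subgroup.subtype_injective _)).toEquiv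
  have h6 : Nat.card (Ab P x j) ≤ Nat.card (phi P x j).range := by
    refine Nat.card_mono (Set.toFinite _) ?_
    rintro _ ⟨σ, -, rfl⟩
    exact ⟨σ, rfl⟩
  refine h6.trans ?_
  rw [← h3, h4, mul_comm]
  exact Nat.mul_le_mul_right _ h2

/-- The second moment. -/
lemma moment [Fintype J] [DecidableEq J] [Fintype (Phi P x).range] (f : ∀ j, (P j).Z → ℝ) (m : J → ℝ)
    {M δ : ℝ} (hδ : 0 ≤ δ) (hf : ∀ j z, |f j z| ≤ M) (hm : ∀ j, |m j| ≤ M) (b : ℕ)
    (hb0 : (Delta P x).index ≠ 0) (hb : (Delta P x).index ≤ b)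
    (hs : ∀ j, Small P x δ j fun z => f j z - m j) :
    ∑ y : ∀ j, Orb P x j, ((Fintype.card (Phi P x).range : ℝ)⁻¹ *
        ∑ θ : (Phi P x).range,
          ∏ j, f j ((((θ : ∀ j, Equiv.Perm (Orb P x j)) • y) j : Orb P x j) : (P j).Z)
        - ∏ j, m j) ^ 2
      ≤ cst M (Fintype.card J) * (Real.sqrt b * δ * (2 * M)) * Fintype.card (∀ j, Orb P x j) := by
  classical
  let T : Subgroup (∀ j, Equiv.Perm (Orb P x j)) := (Delta P x).map (Phi P x)
  let _ : Fintype T := Fintype.ofFinite T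
  have hTΘ : T ≤ (Phi P x).range := by
    rintro _ ⟨σ, -, rfl⟩
    exact ⟨σ, rfl⟩
  let F : (∀ j, Orb P x j) → ℝ := fun y => ∏ j, f j (y j : (P j).Z)
  refine (average_le T (Phi P x).range hTΘ F (∏ j, m j)).trans ?_
  rcases isEmpty_or_nonempty J with hJ | hJ
  · have h0 : ∀ y, F y = 1 := fun y => by simp [F]
    have hc : (0 : ℝ) < Fintype.card T := by exact_mod_cast Fintype.card_pos
    simp only [h0]
    have hcard : Fintype.card J = 0 := Fintype.card_eq_zero
    rw [hcard]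
    simp [cst, hc.ne']
  have hM : 0 ≤ M := by
    obtain ⟨j⟩ := hJ
    exact (abs_nonneg _).trans (hm j)
  let ρ : ∀ j, T →* Equiv.Perm (Orb P x j) := fun j =>
    (Pi.evalMonoidHom (fun j => Equiv.Perm (Orb P x j)) j).comp T.subtype
  have hρ : ∀ j, (ρ j).range = (Delta P x).map (phi P x j) := by
    intro j
    ext g
    constructor
    · rintro ⟨⟨_, σ, hσ, rfl⟩, rfl⟩
      exact ⟨σ, hσ, rfl⟩
    · rintro ⟨σ, hσ, rfl⟩
      exact ⟨⟨Phi P x σ, σ, hσ, rfl⟩, rfl⟩
  set κ : ℝ := Real.sqrt b * δ * (2 * M) with hκdef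
  have hκ : 0 ≤ κ := by positivity
  have hκ2 : κ ^ 2 = b * δ ^ 2 * (2 * M) ^ 2 := by
    rw [hκdef, mul_pow, mul_pow, Real.sq_sqrt (Nat.cast_nonneg b)]
  have hC : ∀ j, ∑ t : T, (∑ y : Orb P x j, (f j (y : (P j).Z) - m j) *
      (f j ((ρ j t y : Orb P x j) : (P j).Z) - m j)) ^ 2
      ≤ κ ^ 2 * Fintype.card T * (Fintype.card (Orb P x j) : ℝ) ^ 2 := by
    intro j
    rw [hκ2]
    refine corr_perm (Ab P x j) (Ab_comm P x j) (ρ j) ?_ b ?_
      (fun y : Orb P x j => f j (y : (P j).Z) - m j) ?_ ?_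
    · rintro ⟨_, σ, hσ, rfl⟩
      refine ⟨σ, ?_, rfl⟩
      exact (Subgroup.mem_iInf.1 hσ) j
    · rw [hρ j]
      exact card_Ab_le P x b hb0 hb j
    · intro y
      calc |f j (y : (P j).Z) - m j| ≤ |f j (y : (P j).Z)| + |m j| := abs_sub _ _
        _ ≤ 2 * M := by linarith [hf j (y : (P j).Z), hm j]
    · intro y χ
      exact small_sum P x hδ j (fun z => f j z - m j) (hs j) y χ
  have h2 := second ρ (fun j (y : Orb P x j) => f j (y : (P j).Z)) m hκ
    (fun j y => hf j _) hm hC univ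
  have hc : (0 : ℝ) < Fintype.card T := by exact_mod_cast Fintype.card_pos
  have h3 : ∀ y : ∀ j, Orb P x j, ((Fintype.card T : ℝ)⁻¹ * ∑ t : T, F ((t : ∀ j, Equiv.Perm (Orb P x j)) • y)
      - ∏ j, m j) ^ 2 = ((Fintype.card T : ℝ) ^ 2)⁻¹ *
        (∑ t : T, ∏ l, f l ((ρ l t (y l) : Orb P x l) : (P l).Z)
          - Fintype.card T * ∏ l, m l) ^ 2 := by
    intro y
    have h4 : ∑ t : T, F ((t : ∀ j, Equiv.Perm (Orb P x j)) • y)
        = ∑ t : T, ∏ l, f l ((ρ l t (y l) : Orb P x l) : (P l).Z) := rfl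
    rw [h4]
    generalize (∑ t : T, ∏ l, f l ((ρ l t (y l) : Orb P x l) : (P l).Z)) = s
    field_simp
  rw [sum_congr rfl fun y _ => h3 y, ← Finset.mul_sum]
  calc ((Fintype.card T : ℝ) ^ 2)⁻¹ * ∑ y : ∀ j, Orb P x j,
        (∑ t : T, ∏ l, f l ((ρ l t (y l) : Orb P x l) : (P l).Z)
          - Fintype.card T * ∏ l, m l) ^ 2
      ≤ ((Fintype.card T : ℝ) ^ 2)⁻¹ * (cst M (univ : Finset J).card *
          (κ * (Fintype.card T : ℝ) ^ 2 * Fintype.card (∀ j, Orb P x j))) := by
        gcongr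
    _ = _ := by
        rw [card_univ]
        field_simp

end Pool.Agent.E8helper40.AA
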