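import Pool.Agent.E8helper40.AA.Second

/-!
# Averages over groups and over orbits
-/

set_option autoImplicit false

open Finset

namespace Pool.Agent.E8helper40.AA

/-- The sum over a finite group and the sum over an orbit. -/
lemma orbit_sum {Θ : Type} [Group Θ] [Fintype Θ] {X : Type} [DecidableEq X] (a : Θ → X)
    (H : Subgroup Θ) (ha : ∀ s t, a s = a t ↔ s⁻¹ * t ∈ H) {E : Type} [AddCommMonoid E]
    (F : X → E) :
    ∑ t, F (a t) = Nat.card H • ∑ w ∈ univ.image a, F w ∧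
      Fintype.card Θ = Nat.card H * (univ.image a).card := by
  classical
  have hfib : ∀ w ∈ (univ : Finset Θ).image a,
      ((univ : Finset Θ).filter fun t => a t = w).card = Nat.card H := by
    intro w hw
    obtain ⟨s, -, rfl⟩ := Finset.mem_image.1 hw
    have : Fintype H := Fintype.ofFinite H
    rw [Nat.card_eq_fintype_card, ← Fintype.card_coe]
    refine Fintype.card_congr
      { toFun := fun t => ⟨s⁻¹ * t.1, (ha s t.1).1 (Finset.mem_filter.1 t.2).2.symm⟩
        invFun := fun h => ⟨s * h.1, Finset.mem_filter.2 ⟨mem_univ _, ?_⟩⟩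
        left_inv := fun t => Subtype.ext (by simp)
        right_inv := fun h => Subtype.ext (by simp) }
    refine ((ha s _).2 ?_).symm
    rw [inv_mul_cancel_left]
    exact h.2
  constructor
  · rw [Finset.sum_comp F a, Finset.smul_sum]
    exact sum_congr rfl fun w hw => by rw [hfib w hw]
  · rw [← Finset.card_univ, Finset.card_eq_sum_card_image a univ, sum_congr rfl hfib, sum_const,
      smul_eq_mul, mul_comm]

/-- Sums with characters of an abelian group of permutations. -/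
lemma twist_sum {Y : Type} [Fintype Y] [DecidableEq Y] (A : Subgroup (Equiv.Perm Y)) (y : Y)
    (χ : A →* ℂ) (g : Y → ℂ) {δ : ℝ} (hδ : 0 ≤ δ)
    (h : ∀ u : Y → ℂ, (∀ a : A, u ((a : Equiv.Perm Y) y) = χ a) →
      ‖∑ᶠ w ∈ Set.range (fun a : A => (a : Equiv.Perm Y) y), u w * g w‖
        ≤ δ * (Set.range (fun a : A => (a : Equiv.Perm Y) y)).ncard) :
    ‖∑ᶠ a : A, χ a * g ((a : Equiv.Perm Y) y)‖ ≤ δ * Nat.card A := by
  classical
  let _ : Fintype A := Fintype.ofFinite A
  rw [finsum_eq_sum_of_fintype]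
  let H : Subgroup A := (MulAction.stabilizer (Equiv.Perm Y) y).subgroupOf A
  have ha : ∀ s t : A, (s : Equiv.Perm Y) y = (t : Equiv.Perm Y) y ↔ s⁻¹ * t ∈ H := by
    intro s t
    rw [Subgroup.mem_subgroupOf, MulAction.mem_stabilizer_iff, Equiv.Perm.smul_def]
    simp only [Subgroup.coe_mul, Subgroup.coe_inv, Equiv.Perm.mul_apply]
    have h0 : ((s : Equiv.Perm Y)⁻¹) ((t : Equiv.Perm Y) y) = y ↔
        (s : Equiv.Perm Y) y = (t : Equiv.Perm Y) y := by
      constructor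
      · intro h
        have h' := congrArg (s : Equiv.Perm Y) h
        rw [← Equiv.Perm.mul_apply, mul_inv_cancel, Equiv.Perm.one_apply] at h'
        exact h'.symm
      · intro h
        rw [← h, ← Equiv.Perm.mul_apply, inv_mul_cancel, Equiv.Perm.one_apply]
    exact h0.symm
  by_cases hs : ∀ a ∈ H, χ a = 1
  · let u : Y → ℂ := fun w => if hw : ∃ a : A, (a : Equiv.Perm Y) y = w then χ hw.choose else 0
    have hu : ∀ a : A, u ((a : Equiv.Perm Y) y) = χ a := by
      intro a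
      have hw : ∃ b : A, (b : Equiv.Perm Y) y = (a : Equiv.Perm Y) y := ⟨a, rfl⟩
      simp only [u, dif_pos hw]
      have h1 := (ha _ _).1 hw.choose_spec.symm
      have h2 := hs _ h1
      have h3 : χ a * χ (a⁻¹ * hw.choose) = χ hw.choose := by
        rw [← map_mul, mul_inv_cancel_left]
      rw [← h3, h2, mul_one]
    have h1 := h u hu
    obtain ⟨h2, h3⟩ := orbit_sum (fun a : A => (a : Equiv.Perm Y) y) H ha (fun w => u w * g w)
    have hrange : Set.range (fun a : A => (a : Equiv.Perm Y) y)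
        = (((univ : Finset A).image fun a : A => (a : Equiv.Perm Y) y : Finset Y) : Set Y) := by
      simp
    rw [hrange, finsum_mem_coe_finset, Set.ncard_coe_finset] at h1
    have h4 : ∑ a : A, χ a * g ((a : Equiv.Perm Y) y)
        = ∑ a : A, u ((a : Equiv.Perm Y) y) * g ((a : Equiv.Perm Y) y) :=
      sum_congr rfl fun a _ => by rw [hu]
    rw [h4, h2, nsmul_eq_mul, norm_mul, Nat.card_eq_fintype_card (α := A), h3]
    push_cast
    have h5 : ‖((Nat.card H : ℕ) : ℂ)‖ = Nat.card H := by simp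
    rw [h5]
    calc (Nat.card H : ℝ) * ‖∑ w ∈ univ.image fun a : A => (a : Equiv.Perm Y) y, u w * g w‖
        ≤ (Nat.card H : ℝ) *
          (δ * ((univ.image fun a : A => (a : Equiv.Perm Y) y).card : ℝ)) := by
          gcongr
      _ = _ := by ring
  · push Not at hs
    obtain ⟨a₀, ha₀, hne⟩ := hs
    have h3 : ((a₀ : Equiv.Perm Y)) y = y := by
      have := Subgroup.mem_subgroupOf.1 ha₀
      rwa [MulAction.mem_stabilizer_iff] at this
    have h2 := Equiv.sum_comp (Equiv.mulRight a₀) (fun a : A => χ a * g ((a : Equiv.Perm Y) y))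
    have h1 : ∑ a : A, χ ((Equiv.mulRight a₀) a) * g ((((Equiv.mulRight a₀) a : A) : Equiv.Perm Y) y)
        = χ a₀ * ∑ a : A, χ a * g ((a : Equiv.Perm Y) y) := by
      rw [Finset.mul_sum]
      refine sum_congr rfl fun a _ => ?_
      simp only [Equiv.coe_mulRight, map_mul, Subgroup.coe_mul, Equiv.Perm.mul_apply, h3]
      ring
    rw [h1] at h2
    have h4 : (χ a₀ - 1) * ∑ a : A, χ a * g ((a : Equiv.Perm Y) y) = 0 := by
      rw [sub_mul, h2, one_mul, sub_self]
    have h5 : ∑ a : A, χ a * g ((a : Equiv.Perm Y) y) = 0 := by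
      rcases mul_eq_zero.1 h4 with h | h
      · exact absurd (sub_eq_zero.1 h) hne
      · exact h
    rw [h5, norm_zero]
    positivity

/-- Averages over larger groups have smaller second moments. -/
lemma average_le {B : Type} [Fintype B] {P : Type} [Group P] [MulAction P B] (T Θ : Subgroup P)
    (hT : T ≤ Θ) [Fintype T] [Fintype Θ] (F : B → ℝ) (I : ℝ) :
    ∑ y, ((Fintype.card Θ : ℝ)⁻¹ * ∑ θ : Θ, F ((θ : P) • y) - I) ^ 2
      ≤ ∑ y, ((Fintype.card T : ℝ)⁻¹ * ∑ t : T, F ((t : P) • y) - I) ^ 2 := by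
  classical
  have hc : (0 : ℝ) < Fintype.card Θ := by exact_mod_cast Fintype.card_pos
  have hcT : (0 : ℝ) < Fintype.card T := by exact_mod_cast Fintype.card_pos
  let D : B → ℝ := fun y => (Fintype.card T : ℝ)⁻¹ * ∑ t : T, F ((t : P) • y) - I
  have h1 : ∀ y, (Fintype.card Θ : ℝ)⁻¹ * ∑ θ : Θ, F ((θ : P) • y) - I
      = (Fintype.card Θ : ℝ)⁻¹ * ∑ θ : Θ, D ((θ : P) • y) := by
    intro y
    have h2 : ∀ t : T, ∑ θ : Θ, F ((t : P) • (θ : P) • y) = ∑ θ : Θ, F ((θ : P) • y) := by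
      intro t
      have h := Equiv.sum_comp (Equiv.mulLeft (⟨t, hT t.2⟩ : Θ)) (fun θ : Θ => F ((θ : P) • y))
      simp only [Equiv.coe_mulLeft, Subgroup.coe_mul, mul_smul] at h
      exact h
    have h3 : ∑ θ : Θ, D ((θ : P) • y)
        = (∑ θ : Θ, F ((θ : P) • y)) - Fintype.card Θ * I := by
      simp only [D, sum_sub_distrib, sum_const, card_univ, nsmul_eq_mul]
      rw [← Finset.mul_sum, sum_comm, sum_congr rfl fun t _ => h2 t, sum_const, card_univ,
        nsmul_eq_mul, ← mul_assoc, inv_mul_cancel₀ hcT.ne', one_mul]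
    rw [h3, mul_sub, ← mul_assoc, inv_mul_cancel₀ hc.ne', one_mul]
  have h4 : ∀ y, ((Fintype.card Θ : ℝ)⁻¹ * ∑ θ : Θ, D ((θ : P) • y)) ^ 2
      ≤ (Fintype.card Θ : ℝ)⁻¹ * ∑ θ : Θ, D ((θ : P) • y) ^ 2 := by
    intro y
    have h := sq_sum_le_card_mul_sum_sq (s := (univ : Finset Θ)) (f := fun θ => D ((θ : P) • y))
    rw [card_univ] at h
    rw [mul_pow]
    calc (Fintype.card Θ : ℝ)⁻¹ ^ 2 * (∑ θ : Θ, D ((θ : P) • y)) ^ 2
        ≤ (Fintype.card Θ : ℝ)⁻¹ ^ 2 * (Fintype.card Θ * ∑ θ : Θ, D ((θ : P) • y) ^ 2) := by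
          gcongr
      _ = _ := by
          field_simp
  calc ∑ y, ((Fintype.card Θ : ℝ)⁻¹ * ∑ θ : Θ, F ((θ : P) • y) - I) ^ 2
      = ∑ y, ((Fintype.card Θ : ℝ)⁻¹ * ∑ θ : Θ, D ((θ : P) • y)) ^ 2 :=
        sum_congr rfl fun y _ => by rw [h1]
    _ ≤ ∑ y, (Fintype.card Θ : ℝ)⁻¹ * ∑ θ : Θ, D ((θ : P) • y) ^ 2 :=
        sum_le_sum fun y _ => h4 y
    _ = (Fintype.card Θ : ℝ)⁻¹ * ∑ θ : Θ, ∑ y, D ((θ : P) • y) ^ 2 := by
        rw [← Finset.mul_sum, sum_comm]
    _ = (Fintype.card Θ : ℝ)⁻¹ * ∑ _θ : Θ, ∑ y, D y ^ 2 := by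
        congr 1
        exact sum_congr rfl fun θ _ =>
          Equiv.sum_comp (MulAction.toPerm (θ : P)) (fun y => D y ^ 2)
    _ = ∑ y, D y ^ 2 := by
        rw [sum_const, card_univ, nsmul_eq_mul, ← mul_assoc, inv_mul_cancel₀ hc.ne', one_mul]

end Pool.Agent.E8helper40.AA
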