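import Pool.Agent.E8helper40.AA.Orbit
import Pool.Agent.E8helper40.EQ.Main

/-!
# The second moment for tuples of conjugates of special points
-/

set_option autoImplicit false

open Finset MeasureTheory
open scoped BoundedContinuousFunction

namespace Pool.Agent.E8helper40.AA

open Pool.Agent.E8helper40.EQ

variable {G : Type} [Group G] {Γ : Subgroup G} {Y : Type}

/-- The Galois group of the compositum of the CM field of `z` and the number field. -/
def cm (P : SpecialPoints Γ Y) (z : P.Z) : Subgroup Γ := (P.K z).subgroupOf Γ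

/-- The function `u` is a character of the orbit of `z` under `cm P z`: there is a character `χ` of
this group with `u (σ z) = χ σ`. -/
def IsTwist (P : SpecialPoints Γ Y) (z : P.Z) (u : P.Z → ℂ) : Prop :=
  ∃ χ : cm P z →* ℂ, ∀ σ : cm P z, u (σ • z) = χ σ

/-- The sequence `x i` of special points is character-equidistributed with respect to `m`: for the
Galois conjugates `z` of `x i` the averages over the orbit of `z` under `cm P z` of the functions
`f - ∫ f dm`, twisted by arbitrary characters, tend to zero uniformly. -/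
def CharacterEquidistributed [TopologicalSpace Y] [MeasurableSpace Y]
    (P : SpecialPoints Γ Y) (x : ℕ → P.Z) (m : ProbabilityMeasure Y) : Prop :=
  ∀ (f : Y →ᵇ ℝ) (ε : ℝ), 0 < ε → ∀ᶠ i in Filter.atTop, ∀ z ∈ MulAction.orbit Γ (x i),
    ∀ u : P.Z → ℂ, IsTwist P z u →
      ‖∑ᶠ w ∈ MulAction.orbit (cm P z) z, u w * ((f (P.pt w) - ∫ y, f y ∂(m : Measure Y) : ℝ) : ℂ)‖
        ≤ ε * (MulAction.orbit (cm P z) z).ncard

variable {J : Type} {W : J → Type}

/-- The tuples of Galois conjugates of the coordinates of `x`. -/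
def conjugates (P : ∀ j, SpecialPoints Γ (W j)) (x : ∀ j, (P j).Z) : Set (∀ j, (P j).Z) :=
  {y | ∀ j, y j ∈ MulAction.orbit Γ (x j)}

section

variable (P : ∀ j, SpecialPoints Γ (W j)) (x : ∀ j, (P j).Z)

/-- the orbit of the coordinate `j` -/
abbrev Orb (j : J) : Type := MulAction.orbit Γ (x j)

/-- the tuple -/
def val (y : ∀ j, Orb P x j) : ∀ j, (P j).Z := fun j => (y j : (P j).Z)

lemma val_injective : Function.Injective (val P x) := fun _ _ h =>
  funext fun j => Subtype.ext (congrFun h j)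

lemma range_val : Set.range (val P x) = conjugates P x := by
  ext y
  constructor
  · rintro ⟨y, rfl⟩ j
    exact (y j).2
  · intro h
    exact ⟨fun j => ⟨y j, h j⟩, rfl⟩

/-- the action on the orbit -/
noncomputable def phi (j : J) : Γ →* Equiv.Perm (Orb P x j) := MulAction.toPermHom Γ (Orb P x j)

lemma phi_apply (j : J) (γ : Γ) (y : Orb P x j) : ((phi P x j γ y : Orb P x j) : (P j).Z)
    = γ • (y : (P j).Z) := rfl

lemma cm_smul (j : J) (γ : Γ) (z : (P j).Z) : cm (P j) (γ • z) = cm (P j) z := by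
  rw [cm, cm, (P j).K_smul]

/-- the abelian group of the coordinate `j` -/
noncomputable def Ab (j : J) : Subgroup (Equiv.Perm (Orb P x j)) :=
  (cm (P j) (x j)).map (phi P x j)

lemma Ab_comm (j : J) : ∀ a ∈ Ab P x j, ∀ b ∈ Ab P x j, a * b = b * a := by
  rintro _ ⟨σ, hσ, rfl⟩ _ ⟨τ, hτ, rfl⟩
  apply Equiv.ext
  intro w
  apply Subtype.ext
  rw [← map_mul, ← map_mul, phi_apply, phi_apply]
  obtain ⟨γ, hγ⟩ := w.2
  have h1 := (P j).comm (x j) σ (Subgroup.mem_subgroupOf.1 hσ) τ (Subgroup.mem_subgroupOf.1 hτ)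
  have h2 := (P j).fixed (σ * τ * σ⁻¹ * τ⁻¹) ((τ * σ) • (w : (P j).Z)) (by
    rw [(P j).N_smul]
    have h3 : (P j).N (w : (P j).Z) = (P j).N (x j) := by
      rw [← hγ]
      exact (P j).N_smul γ (x j)
    rw [h3]
    exact h1)
  rw [smul_smul] at h2
  rw [← h2]
  congr 1
  group

/-- the hypothesis on the sums with characters, at one point -/
def Small (δ : ℝ) (j : J) (g : (P j).Z → ℝ) : Prop :=
  ∀ z ∈ MulAction.orbit Γ (x j), ∀ u : (P j).Z → ℂ, IsTwist (P j) z u →
    ‖∑ᶠ w ∈ MulAction.orbit (cm (P j) z) z, u w * (g w : ℂ)‖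
      ≤ δ * (MulAction.orbit (cm (P j) z) z).ncard

lemma orbit_eq (j : J) (y : Orb P x j) :
    Subtype.val '' (Set.range fun a : Ab P x j => (a : Equiv.Perm (Orb P x j)) y)
      = MulAction.orbit (cm (P j) (y : (P j).Z)) (y : (P j).Z) := by
  obtain ⟨γ, hγ⟩ := y.2
  have hcm : cm (P j) (y : (P j).Z) = cm (P j) (x j) := by
    rw [← hγ]
    exact cm_smul P j γ (x j)
  ext w
  constructor
  · rintro ⟨_, ⟨⟨_, σ, hσ, rfl⟩, rfl⟩, rfl⟩
    rw [← hcm] at hσ
    exact ⟨⟨σ, hσ⟩, rfl⟩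
  · rintro ⟨⟨σ, hσ⟩, rfl⟩
    rw [hcm] at hσ
    exact ⟨_, ⟨⟨phi P x j σ, ⟨σ, hσ, rfl⟩⟩, rfl⟩, rfl⟩

lemma small_sum {δ : ℝ} (hδ : 0 ≤ δ) (j : J) (g : (P j).Z → ℝ) (h : Small P x δ j g)
    (y : Orb P x j) (χ : Ab P x j →* ℂ) :
    ‖∑ᶠ a : Ab P x j, χ a * ((g (((a : Equiv.Perm (Orb P x j)) y : Orb P x j) : (P j).Z) : ℝ) : ℂ)‖
      ≤ δ * Nat.card (Ab P x j) := by
  classical
  have : Fintype (Orb P x j) := ((P j).orbit_finite (x j)).fintype
  refine twist_sum (Ab P x j) y χ (fun w => (g (w : (P j).Z) : ℂ)) hδ ?_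
  intro u hu
  obtain ⟨γ, hγ⟩ := y.2
  have hcm : cm (P j) (y : (P j).Z) = cm (P j) (x j) := by
    rw [← hγ]
    exact cm_smul P j γ (x j)
  let u' : (P j).Z → ℂ := fun w => if hw : w ∈ MulAction.orbit Γ (x j) then u ⟨w, hw⟩ else 0
  have hu' : ∀ w : Orb P x j, u' (w : (P j).Z) = u w := fun w => by
    simp only [u', dif_pos w.2]
  let ψ : cm (P j) (y : (P j).Z) →* Ab P x j :=
    { toFun := fun σ => ⟨phi P x j σ, ⟨σ, by
        change (σ : Γ) ∈ cm (P j) (x j)
        rw [← hcm]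
        exact σ.2, rfl⟩⟩
      map_one' := Subtype.ext (by simp)
      map_mul' := fun a b => Subtype.ext (by simp) }
  have h1 := h (y : (P j).Z) y.2 u' ⟨χ.comp ψ, fun σ => by
    have h2 : ((σ : Γ) • (y : (P j).Z)) = ((phi P x j (σ : Γ) y : Orb P x j) : (P j).Z) := rfl
    have h3 : (σ • (y : (P j).Z)) = ((σ : Γ) • (y : (P j).Z)) := rfl
    rw [h3, h2, hu', MonoidHom.comp_apply, ← hu (ψ σ)]
    rfl⟩
  rw [← orbit_eq P x j y, Set.ncard_image_of_injective _ Subtype.val_injective,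
    finsum_mem_image Subtype.val_injective.injOn] at h1
  simp only [hu'] at h1
  exact h1

end

end Pool.Agent.E8helper40.AA
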