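import Pool.Agent.E8helper40.AA.Fourier

/-!
# The second moment of the averages of product functions
-/

set_option autoImplicit false

open Finset

namespace Pool.Agent.E8helper40.AA

/-- Autocorrelations along a homomorphism to an abelian group of permutations. -/
lemma corr_perm {Y : Type} [Fintype Y] (A : Subgroup (Equiv.Perm Y))
    (hA : ∀ a ∈ A, ∀ b ∈ A, a * b = b * a) {T : Type} [Group T] [Fintype T]
    (r : T →* Equiv.Perm Y) (hr : ∀ t, r t ∈ A) (b : ℕ) (hb : Nat.card A ≤ b * Nat.card r.range)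
    (g : Y → ℝ) {M δ : ℝ} (hM : ∀ y, |g y| ≤ M)
    (h : ∀ (y : Y) (χ : A →* ℂ), ‖∑ᶠ a : A, χ a * (g ((a : Equiv.Perm Y) y) : ℂ)‖
      ≤ δ * Nat.card A) :
    ∑ t : T, (∑ y, g y * g (r t y)) ^ 2
      ≤ b * δ ^ 2 * M ^ 2 * Fintype.card T * (Fintype.card Y : ℝ) ^ 2 := by
  classical
  let _ : CommGroup A := { (inferInstance : Group A) with
    mul_comm := fun a b => Subtype.ext (hA a a.2 b b.2) }
  have : Finite A := inferInstance
  let _ : Fintype A := Fintype.ofFinite A
  let r' : T →* A := r.codRestrict A hr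
  have hrange : Nat.card r'.range = Nat.card r.range := by
    have h1 : r'.range.map A.subtype = r.range := by
      rw [← MonoidHom.range_comp]
      rfl
    rw [← h1]
    exact (Nat.card_congr (Subgroup.equivMapOfInjective _ _ A.subtype_injective).toEquiv)
  have key := corr_sq_sum_hom (Y := Y) r' b (by
    rw [← Nat.card_eq_fintype_card, hrange]
    exact hb) g hM (δ := δ) (by
    intro y ψ
    let χ : A →* ℂ :=
      { toFun := fun a => ψ (Additive.ofMul a)
        map_one' := by rw [ofMul_one, AddChar.map_zero_eq_one]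
        map_mul' := fun a b => by rw [ofMul_mul, AddChar.map_add_eq_mul] }
    have h2 := h y χ
    rw [finsum_eq_sum_of_fintype, Nat.card_eq_fintype_card] at h2
    exact h2)
  exact key

section pi

variable {J : Type} [DecidableEq J] {Y : J → Type}

/-- exchanging a coordinate -/
def swapAt (j : J) : (∀ l, Y l) × Y j ≃ (∀ l, Y l) × Y j where
  toFun p := (Function.update p.1 j p.2, p.1 j)
  invFun p := (Function.update p.1 j p.2, p.1 j)
  left_inv p := by
    simp
  right_inv p := by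
    simp

variable [Fintype J] [∀ j, Fintype (Y j)]

lemma sum_update (j : J) (Φ : (∀ l, Y l) → ℝ) :
    ∑ y : ∀ l, Y l, ∑ a : Y j, Φ (Function.update y j a) = Fintype.card (Y j) * ∑ y, Φ y := by
  rw [← Fintype.sum_prod_type' (f := fun (y : ∀ l, Y l) (a : Y j) => Φ (Function.update y j a))]
  have h := Equiv.sum_comp (swapAt (Y := Y) j) (fun p => Φ p.1)
  calc ∑ x : (∀ l, Y l) × Y j, Φ (Function.update x.1 j x.2)
      = ∑ x : (∀ l, Y l) × Y j, Φ (swapAt j x).1 := rfl
    _ = ∑ x : (∀ l, Y l) × Y j, Φ x.1 := h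
    _ = _ := by
      rw [Fintype.sum_prod_type, Finset.mul_sum]
      exact sum_congr rfl fun y _ => by simp

variable {T : Type} [Group T] [Fintype T] (ρ : ∀ j, T →* Equiv.Perm (Y j))

/-- the action on the product -/
def act (t : T) (y : ∀ j, Y j) : ∀ j, Y j := fun j => ρ j t (y j)

omit [Fintype J] [∀ j, Fintype (Y j)] [Fintype T] in
lemma act_update (t : T) (y : ∀ j, Y j) (j : J) (a : Y j) :
    act ρ t (Function.update y j a) = Function.update (act ρ t y) j (ρ j t a) := by
  funext l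
  rcases eq_or_ne l j with rfl | hl
  · simp [act]
  · simp [act, hl]

/-- The basic estimate. -/
lemma key (j : J) (g : Y j → ℝ) (h : (∀ l, Y l) → ℝ) {κ H : ℝ} (hκ : 0 ≤ κ) (hH : ∀ y, |h y| ≤ H)
    (hh : ∀ y a, h (Function.update y j a) = h y) [Nonempty (Y j)]
    (hC : ∑ t : T, (∑ y, g y * g (ρ j t y)) ^ 2
      ≤ κ ^ 2 * Fintype.card T * (Fintype.card (Y j) : ℝ) ^ 2) :
    ∑ y : ∀ l, Y l, (∑ t : T, g (ρ j t (y j)) * h (act ρ t y)) ^ 2
      ≤ κ * H ^ 2 * (Fintype.card T : ℝ) ^ 2 * Fintype.card (∀ l, Y l) := by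
  have hcard : (0 : ℝ) < Fintype.card (Y j) := by exact_mod_cast Fintype.card_pos
  set C : T → ℝ := fun t => ∑ y, g y * g (ρ j t y) with hCdef
  have hH0 : ∀ y : (∀ l, Y l), 0 ≤ H := fun y => (abs_nonneg _).trans (hH y)
  have hcorr : ∀ s t : T, ∑ a : Y j, g (ρ j s a) * g (ρ j t a) = C (t * s⁻¹) := by
    intro s t
    have h1 := Equiv.sum_comp (ρ j s) (fun y => g y * g (ρ j (t * s⁻¹) y))
    rw [hCdef]
    simp only
    rw [← h1]
    refine sum_congr rfl fun a _ => ?_
    rw [← Equiv.Perm.mul_apply, ← map_mul, inv_mul_cancel_right]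
  -- a term of the square
  have hterm : ∀ s t : T, (Fintype.card (Y j) : ℝ) *
      ∑ y : ∀ l, Y l, (g (ρ j s (y j)) * h (act ρ s y)) * (g (ρ j t (y j)) * h (act ρ t y))
      ≤ Fintype.card (∀ l, Y l) * (H ^ 2 * |C (t * s⁻¹)|) := by
    intro s t
    rw [← sum_update j]
    have h1 : ∀ y : ∀ l, Y l, ∑ a : Y j,
        (g (ρ j s (Function.update y j a j)) * h (act ρ s (Function.update y j a))) *
          (g (ρ j t (Function.update y j a j)) * h (act ρ t (Function.update y j a)))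
        = h (act ρ s y) * h (act ρ t y) * C (t * s⁻¹) := by
      intro y
      rw [← hcorr s t, Finset.mul_sum]
      refine sum_congr rfl fun a _ => ?_
      rw [act_update, act_update, hh, hh, Function.update_self]
      ring
    rw [sum_congr rfl fun y _ => h1 y]
    calc ∑ y : ∀ l, Y l, h (act ρ s y) * h (act ρ t y) * C (t * s⁻¹)
        ≤ ∑ _y : ∀ l, Y l, H ^ 2 * |C (t * s⁻¹)| := by
          refine sum_le_sum fun y _ => ?_
          refine (le_abs_self _).trans ?_
          rw [abs_mul, abs_mul, sq]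
          exact mul_le_mul_of_nonneg_right (mul_le_mul (hH _) (hH _) (abs_nonneg _) (hH0 y))
            (abs_nonneg _)
      _ = _ := by simp
  have hexp : (Fintype.card (Y j) : ℝ) *
      ∑ y : ∀ l, Y l, (∑ t : T, g (ρ j t (y j)) * h (act ρ t y)) ^ 2
      ≤ ∑ s : T, ∑ t : T, Fintype.card (∀ l, Y l) * (H ^ 2 * |C (t * s⁻¹)|) := by
    have h1 : ∑ y : ∀ l, Y l, (∑ t : T, g (ρ j t (y j)) * h (act ρ t y)) ^ 2
        = ∑ s : T, ∑ t : T, ∑ y : ∀ l, Y l,
          (g (ρ j s (y j)) * h (act ρ s y)) * (g (ρ j t (y j)) * h (act ρ t y)) := by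
      simp only [sq, Finset.sum_mul_sum]
      rw [sum_comm]
      exact sum_congr rfl fun s _ => sum_comm
    rw [h1, Finset.mul_sum]
    refine sum_le_sum fun s _ => ?_
    rw [Finset.mul_sum]
    exact sum_le_sum fun t _ => hterm s t
  have hsumC : ∑ s : T, ∑ t : T, |C (t * s⁻¹)| = Fintype.card T * ∑ t : T, |C t| := by
    have : ∀ s : T, ∑ t : T, |C (t * s⁻¹)| = ∑ t : T, |C t| := fun s =>
      Equiv.sum_comp (Equiv.mulRight s⁻¹) (fun t => |C t|)
    rw [sum_congr rfl fun s _ => this s]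
    simp
  have hCS : ∑ t : T, |C t| ≤ κ * Fintype.card T * Fintype.card (Y j) := by
    have h1 := sq_sum_le_card_mul_sum_sq (s := (univ : Finset T)) (f := fun t => |C t|)
    simp only [sq_abs, card_univ] at h1
    have h2 : (∑ t : T, |C t|) ^ 2 ≤ (κ * Fintype.card T * Fintype.card (Y j)) ^ 2 := by
      refine h1.trans ((mul_le_mul_of_nonneg_left hC (by positivity)).trans (le_of_eq ?_))
      ring
    exact le_of_sq_le_sq h2 (by positivity)
  have hfin : (Fintype.card (Y j) : ℝ) *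
      ∑ y : ∀ l, Y l, (∑ t : T, g (ρ j t (y j)) * h (act ρ t y)) ^ 2
      ≤ Fintype.card (Y j) * (κ * H ^ 2 * (Fintype.card T : ℝ) ^ 2 * Fintype.card (∀ l, Y l)) := by
    refine hexp.trans ?_
    simp only [← Finset.mul_sum]
    rw [hsumC]
    calc (Fintype.card (∀ l, Y l) : ℝ) * (H ^ 2 * (Fintype.card T * ∑ t : T, |C t|))
        ≤ (Fintype.card (∀ l, Y l) : ℝ) *
          (H ^ 2 * (Fintype.card T * (κ * Fintype.card T * Fintype.card (Y j)))) := by
          gcongr
      _ = _ := by ring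
  exact le_of_mul_le_mul_left hfin hcard

/-- the constants -/
noncomputable def cst (M : ℝ) : ℕ → ℝ
  | 0 => 0
  | k + 1 => 2 * (M ^ k) ^ 2 + 2 * M ^ 2 * cst M k

lemma cst_nonneg (M : ℝ) (k : ℕ) : 0 ≤ cst M k := by
  induction k with
  | zero => exact le_rfl
  | succ k ih =>
    rw [cst]
    positivity

/-- The second moment. -/
lemma second [∀ j, Nonempty (Y j)] (f : ∀ j, Y j → ℝ) (m : J → ℝ) {M κ : ℝ} (hκ : 0 ≤ κ)
    (hf : ∀ j y, |f j y| ≤ M) (hm : ∀ j, |m j| ≤ M)
    (hC : ∀ j, ∑ t : T, (∑ y, (f j y - m j) * (f j (ρ j t y) - m j)) ^ 2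
      ≤ κ ^ 2 * Fintype.card T * (Fintype.card (Y j) : ℝ) ^ 2) (S : Finset J) :
    ∑ y : ∀ l, Y l, (∑ t : T, ∏ l ∈ S, f l (ρ l t (y l)) - Fintype.card T * ∏ l ∈ S, m l) ^ 2
      ≤ cst M S.card * (κ * (Fintype.card T : ℝ) ^ 2 * Fintype.card (∀ l, Y l)) := by
  induction S using Finset.induction_on with
  | empty => simp [cst]
  | insert j S hj ih =>
    rw [card_insert_of_notMem hj, cst]
    let h : (∀ l, Y l) → ℝ := fun y => ∏ l ∈ S, f l (y l)
    have hb : ∀ y, |h y| ≤ M ^ S.card := by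
      intro y
      rw [abs_prod]
      exact (prod_le_prod (fun l _ => abs_nonneg _) (fun l _ => hf l _)).trans_eq (by simp)
    have hu : ∀ y a, h (Function.update y j a) = h y := by
      intro y a
      refine prod_congr rfl fun l hl => ?_
      have hlj : l ≠ j := by
        rintro rfl
        exact hj hl
      rw [Function.update_of_ne hlj]
    have h1 := key ρ j (fun y => f j y - m j) h hκ hb hu (hC j)
    have hid : ∀ y : ∀ l, Y l, ∑ t : T, ∏ l ∈ insert j S, f l (ρ l t (y l))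
        - Fintype.card T * ∏ l ∈ insert j S, m l
        = (∑ t : T, (f j (ρ j t (y j)) - m j) * h (act ρ t y))
          + m j * (∑ t : T, ∏ l ∈ S, f l (ρ l t (y l)) - Fintype.card T * ∏ l ∈ S, m l) := by
      intro y
      simp only [prod_insert hj, sub_mul, sum_sub_distrib, mul_sub, Finset.mul_sum]
      have : ∀ t, h (act ρ t y) = ∏ l ∈ S, f l (ρ l t (y l)) := fun t => rfl
      simp only [this]
      ring
    calc ∑ y : ∀ l, Y l, (∑ t : T, ∏ l ∈ insert j S, f l (ρ l t (y l))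
          - Fintype.card T * ∏ l ∈ insert j S, m l) ^ 2
        ≤ ∑ y : ∀ l, Y l, (2 * (∑ t : T, (f j (ρ j t (y j)) - m j) * h (act ρ t y)) ^ 2
          + 2 * M ^ 2 *
            (∑ t : T, ∏ l ∈ S, f l (ρ l t (y l)) - Fintype.card T * ∏ l ∈ S, m l) ^ 2) := by
          refine sum_le_sum fun y _ => ?_
          rw [hid y]
          generalize (∑ t : T, (f j (ρ j t (y j)) - m j) * h (act ρ t y)) = u
          generalize (∑ t : T, ∏ l ∈ S, f l (ρ l t (y l)) - Fintype.card T * ∏ l ∈ S, m l) = v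
          have h2 : (m j) ^ 2 ≤ M ^ 2 := by
            rw [← sq_abs]
            exact pow_le_pow_left₀ (abs_nonneg _) (hm j) 2
          nlinarith [sq_nonneg (u - m j * v), mul_nonneg (sub_nonneg.2 h2) (sq_nonneg v)]
      _ = 2 * ∑ y : ∀ l, Y l, (∑ t : T, (f j (ρ j t (y j)) - m j) * h (act ρ t y)) ^ 2
          + 2 * M ^ 2 * ∑ y : ∀ l, Y l,
            (∑ t : T, ∏ l ∈ S, f l (ρ l t (y l)) - Fintype.card T * ∏ l ∈ S, m l) ^ 2 := by
          rw [sum_add_distrib, Finset.mul_sum, Finset.mul_sum]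
      _ ≤ 2 * (κ * (M ^ S.card) ^ 2 * (Fintype.card T : ℝ) ^ 2 * Fintype.card (∀ l, Y l))
          + 2 * M ^ 2 * (cst M S.card * (κ * (Fintype.card T : ℝ) ^ 2 *
            Fintype.card (∀ l, Y l))) := by
          gcongr
      _ = _ := by ring

end pi

end Pool.Agent.E8helper40.AA
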